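import Pool.Agent.W761.CB.Stms
import Pool.Agent.W975.CB.Ms
import Pool.Agent.W366.CB.Lam
import Pool.Agent.W337.CB.Mecke
import Pool.Agent.W417.CB.Ebc

/-!
# CB-LA: blocks with at least two particles are rare
-/

set_option autoImplicit false

open MeasureTheory Pool.Agent.W761.CB
open scoped ENNReal

namespace Pool.Agent.W571.CB.La

section gen

variable {X : Type}

open Classical in
lemma cnt_eq (B : Set X) (S : Multiset X) :
    cnt B S = (S.map fun x => if x ∈ B then 1 else 0).sum := by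
  unfold cnt
  induction S using Multiset.induction_on with
  | empty => simp
  | cons x S ih =>
    rw [Multiset.filter_cons, Multiset.card_add, ih, Multiset.map_cons, Multiset.sum_cons]
    split_ifs <;> simp

open Classical in
lemma cnt_eqE (B : Set X) (S : Multiset X) :
    ((cnt B S : ℕ) : ℝ≥0∞) = (S.map fun x => if x ∈ B then 1 else 0).sum := by
  rw [cnt_eq]
  induction S using Multiset.induction_on with
  | empty => simp
  | cons x S ih =>
    rw [Multiset.map_cons, Multiset.sum_cons, Multiset.map_cons, Multiset.sum_cons, Nat.cast_add, ih]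
    split_ifs <;> simp

lemma cnt_cons (B : Set X) (x : X) (S : Multiset X) (h : x ∈ B) :
    cnt B (x ::ₘ S) = cnt B S + 1 := by
  classical
  rw [cnt_eq, cnt_eq, Multiset.map_cons, Multiset.sum_cons, if_pos h, add_comm]

lemma swap_sum {ι : Type} (O : Finset ι) (f : ι → X → ℝ≥0∞) (S : Multiset X) :
    ∑ i ∈ O, (S.map (f i)).sum = (S.map fun x => ∑ i ∈ O, f i x).sum := by
  induction S using Multiset.induction_on with
  | empty => simp
  | cons x S ih =>
    simp only [Multiset.map_cons, Multiset.sum_cons, Finset.sum_add_distrib, ih]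

variable {ι : Type} [Fintype ι] (B : ι → Set X) (hB : ∀ x, ∃! i, x ∈ B i)

include hB

open Classical in
lemma sum_ind (x : X) (c : ι → Prop) :
    ∑ i, (if x ∈ B i ∧ c i then (1 : ℝ≥0∞) else 0) = if ∃ i, x ∈ B i ∧ c i then 1 else 0 := by
  obtain ⟨i0, hi0, hu⟩ := hB x
  by_cases h : c i0
  · rw [if_pos ⟨i0, hi0, h⟩, Finset.sum_eq_single i0, if_pos ⟨hi0, h⟩]
    · intro i _ hi
      rw [if_neg]
      rintro ⟨h1, -⟩
      exact hi (hu i h1)
    · intro h; exact absurd (Finset.mem_univ _) h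
  · rw [if_neg, Finset.sum_eq_zero]
    · intro i _
      rw [if_neg]
      rintro ⟨h1, h2⟩
      rw [hu i h1] at h2
      exact h h2
    · rintro ⟨i, h1, h2⟩
      rw [hu i h1] at h2
      exact h h2

open Classical in
lemma lemA (S : Multiset X) : ∑ i, ((cnt (B i) S - 1 : ℕ) : ℝ≥0∞) ≤
    (S.map fun x => if ∃ i, x ∈ B i ∧ 2 ≤ cnt (B i) S then (1 : ℝ≥0∞) else 0).sum := by
  have h1 : ∀ i, ((cnt (B i) S - 1 : ℕ) : ℝ≥0∞) ≤
      (S.map fun x => if x ∈ B i ∧ 2 ≤ cnt (B i) S then (1 : ℝ≥0∞) else 0).sum := by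
    intro i
    by_cases h : 2 ≤ cnt (B i) S
    · simp only [h, and_true]
      rw [← cnt_eqE]
      exact_mod_cast Nat.sub_le _ _
    · have : cnt (B i) S - 1 = 0 := by omega
      rw [this]
      simp
  refine (Finset.sum_le_sum fun i _ => h1 i).trans ?_
  rw [swap_sum]
  refine le_of_eq ?_
  congr 1
  refine Multiset.map_congr rfl fun x _ => ?_
  have h := sum_ind B hB x (fun i => 2 ≤ cnt (B i) S)
  refine Eq.trans ?_ (h.trans ?_)
  · exact Finset.sum_congr rfl fun i _ => by congr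
  · congr

lemma lemB (S : Multiset X) : ((Multiset.card S : ℕ) : ℝ≥0∞) = ∑ i, ((cnt (B i) S : ℕ) : ℝ≥0∞) := by
  classical
  simp only [cnt_eqE]
  rw [swap_sum]
  have : ∀ x, ∑ i, (if x ∈ B i then (1 : ℝ≥0∞) else 0) = 1 := by
    intro x
    have := sum_ind B hB x (fun _ => True)
    simp only [and_true] at this
    rw [this, if_pos (hB x).exists]
  simp only [this]
  simp

lemma lemC (S : Multiset X) (O : Finset ι) (y : ι → X) (h1 : ∀ i ∈ O, y i ∈ S)
    (h2 : ∀ i ∈ O, y i ∈ B i) (Ψ : X → ℝ≥0∞) : ∑ i ∈ O, Ψ (y i) ≤ (S.map Ψ).sum := by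
  classical
  have hinj : Set.InjOn y O := by
    intro i hi j hj hij
    have e1 := h2 i hi
    have e2 := h2 j hj
    rw [hij] at e1
    exact (hB (y j)).unique e1 e2
  rw [← Finset.sum_image hinj]
  have hle : (O.image y).val ≤ S := by
    rw [Multiset.le_iff_subset (O.image y).nodup]
    intro z hz
    rw [Finset.mem_val] at hz
    obtain ⟨i, hi, rfl⟩ := Finset.mem_image.1 hz
    exact h1 i hi
  obtain ⟨u, hu⟩ := Multiset.le_iff_exists_add.1 hle
  rw [hu, Multiset.map_add, Multiset.sum_add]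
  exact le_self_add

end gen

section meas

variable {X : Type} [MeasurableSpace X]

lemma meas_cnt (B : Set X) (hB : MeasurableSet B) : Measurable fun γ : Cf X => cnt B (ms γ) := by
  classical
  simp only [cnt_eq]
  have h := Pool.Agent.W975.CB.sum_meas (X := X) (Z := ℕ) Unit (fun _ x => if x ∈ B then 1 else 0)
    (Measurable.ite (measurable_snd hB) measurable_const measurable_const)
  exact h.comp (measurable_prodMk_left (x := ()))

lemma meas_nF {F : Multiset X → ℂ} (hF : EB F) : Measurable fun γ : Cf X => ‖F (ms γ)‖ₑ ^ 2 :=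
  hF.meas.enorm.pow_const 2

end meas

lemma ebc : S_EBC := Pool.Agent.W417.CB.proof_ebc Pool.Agent.W975.CB.proof_ms
  (Pool.Agent.W366.CB.proof_lam Pool.Agent.W975.CB.proof_ms)

lemma slam : S_LAM := Pool.Agent.W366.CB.proof_lam Pool.Agent.W975.CB.proof_ms

lemma mecke : S_MECKE := Pool.Agent.W337.CB.proof_mecke Pool.Agent.W975.CB.proof_ms slam

section main

variable {X : Type} [MeasurableSpace X] (ν : Measure X) [IsFiniteMeasure ν]

lemma nu_card {F : Multiset X → ℂ} (hF : EB F) :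
    nuE ν F = ∫⁻ γ, ((Multiset.card (ms γ) : ℕ) : ℝ≥0∞) * ‖F (ms γ)‖ₑ ^ 2 ∂(lam ν) := by
  have h := mecke X ν (fun _ S => ‖F S‖ₑ ^ 2) ((meas_nF hF).comp measurable_snd)
  unfold nuE nE an
  rw [← h]
  refine lintegral_congr fun γ => ?_
  simp [mul_comm]

variable {ι : Type} [Fintype ι] (B : ι → Set X) (hB : ∀ x, ∃! i, x ∈ B i)
  (hBm : ∀ i, MeasurableSet (B i))

include hB hBm

lemma second {F : Multiset X → ℂ} (hF : EB F) :
    nuE ν F ≤ ((Fintype.card ι : ℕ) : ℝ≥0∞) * nE ν F +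
      ∑ i, ∫⁻ γ, ((cnt (B i) (ms γ) - 1 : ℕ) : ℝ≥0∞) * ‖F (ms γ)‖ₑ ^ 2 ∂(lam ν) := by
  rw [nu_card ν hF]
  have hm : ∀ i, Measurable fun γ : Cf X =>
      ((cnt (B i) (ms γ) - 1 : ℕ) : ℝ≥0∞) * ‖F (ms γ)‖ₑ ^ 2 := by
    intro i
    refine Measurable.mul ?_ (meas_nF hF)
    exact (measurable_from_nat (f := fun k : ℕ => ((k - 1 : ℕ) : ℝ≥0∞))).comp
      (meas_cnt (B i) (hBm i))
  have hne : ((Fintype.card ι : ℕ) : ℝ≥0∞) ≠ ⊤ := ENNReal.natCast_ne_top _
  rw [← lintegral_finsetSum _ fun i _ => hm i, nE, ← lintegral_const_mul' _ _ hne,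
    ← lintegral_add_left ((meas_nF hF).const_mul _)]
  refine lintegral_mono fun γ => ?_
  rw [lemB B hB, ← Finset.sum_mul, ← add_mul]
  refine mul_le_mul' ?_ le_rfl
  have : ((Fintype.card ι : ℕ) : ℝ≥0∞) = ∑ i : ι, 1 := by simp
  rw [this, ← Finset.sum_add_distrib]
  refine Finset.sum_le_sum fun i _ => ?_
  have h2 : cnt (B i) (ms γ) ≤ 1 + (cnt (B i) (ms γ) - 1) := by omega
  exact_mod_cast h2

open Classical in
lemma first1 {F : Multiset X → ℂ} (hF : EB F) :
    ∑ i, ∫⁻ γ, ((cnt (B i) (ms γ) - 1 : ℕ) : ℝ≥0∞) * ‖F (ms γ)‖ₑ ^ 2 ∂(lam ν) ≤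
      ∫⁻ γ, ∑ i ∈ Finset.univ.filter (fun i => 1 ≤ cnt (B i) (ms γ)),
        ∫⁻ x in B i, ‖F (x ::ₘ ms γ)‖ₑ ^ 2 ∂ν ∂(lam ν) := by
  have hm : ∀ i, Measurable fun γ : Cf X =>
      ((cnt (B i) (ms γ) - 1 : ℕ) : ℝ≥0∞) * ‖F (ms γ)‖ₑ ^ 2 := by
    intro i
    refine Measurable.mul ?_ (meas_nF hF)
    exact (measurable_from_nat (f := fun k : ℕ => ((k - 1 : ℕ) : ℝ≥0∞))).comp
      (meas_cnt (B i) (hBm i))
  have hfin : IsFiniteMeasure (lam ν) := (slam X ν).2.1
  obtain ⟨-, -, -, -, hF2, -⟩ := ebc X ν F F hF hF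
  rw [← lintegral_finsetSum _ fun i _ => hm i]
  set h : X → Multiset X → ℝ≥0∞ := fun x S =>
    (if ∃ i, x ∈ B i ∧ 2 ≤ cnt (B i) S then (1 : ℝ≥0∞) else 0) * ‖F S‖ₑ ^ 2 with hh
  have hset : ∀ k : ℕ, MeasurableSet {p : X × Cf X | ∃ i, p.1 ∈ B i ∧ k ≤ cnt (B i) (ms p.2)} := by
    intro k
    have : {p : X × Cf X | ∃ i, p.1 ∈ B i ∧ k ≤ cnt (B i) (ms p.2)} =
        ⋃ i, (Prod.fst ⁻¹' (B i)) ∩ (Prod.snd ⁻¹' ((fun γ : Cf X => cnt (B i) (ms γ)) ⁻¹' {j | k ≤ j})) := by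
      ext p
      simp
    rw [this]
    refine MeasurableSet.iUnion fun i => ?_
    exact (measurable_fst (hBm i)).inter (measurable_snd ((meas_cnt (B i) (hBm i)) trivial))
  have hmh : Measurable (fun p : X × Cf X => h p.1 (ms p.2)) := by
    refine Measurable.mul ?_ ((meas_nF hF).comp measurable_snd)
    exact Measurable.ite (hset 2) measurable_const measurable_const
  have e1 : ∫⁻ γ, ∑ i, ((cnt (B i) (ms γ) - 1 : ℕ) : ℝ≥0∞) * ‖F (ms γ)‖ₑ ^ 2 ∂(lam ν) ≤
      ∫⁻ γ, ((ms γ).map fun x => h x (ms γ)).sum ∂(lam ν) := by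
    refine lintegral_mono fun γ => ?_
    simp only [hh]
    rw [Multiset.sum_map_mul_right, ← Finset.sum_mul]
    exact mul_le_mul' (lemA B hB (ms γ)) le_rfl
  refine e1.trans ?_
  rw [mecke X ν h hmh]
  have e2 : ∀ x γ, h x (x ::ₘ ms γ) =
      (if ∃ i, x ∈ B i ∧ 1 ≤ cnt (B i) (ms γ) then (1 : ℝ≥0∞) else 0) * ‖F (x ::ₘ ms γ)‖ₑ ^ 2 := by
    intro x γ
    simp only [hh]
    congr 2
    apply propext
    refine exists_congr fun i => and_congr_right fun hi => ?_
    rw [cnt_cons _ _ _ hi]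
    omega
  simp only [e2]
  rw [lintegral_lintegral_swap]
  · refine lintegral_mono fun γ => ?_
    have e3 : ∀ x, (if ∃ i, x ∈ B i ∧ 1 ≤ cnt (B i) (ms γ) then (1 : ℝ≥0∞) else 0) *
        ‖F (x ::ₘ ms γ)‖ₑ ^ 2 ≤ ∑ i ∈ Finset.univ.filter (fun i => 1 ≤ cnt (B i) (ms γ)),
          (B i).indicator (fun x => ‖F (x ::ₘ ms γ)‖ₑ ^ 2) x := by
      intro x
      split_ifs with hx
      · obtain ⟨i, hi1, hi2⟩ := hx
        rw [one_mul]
        have := Finset.single_le_sum (s := Finset.univ.filter (fun i => 1 ≤ cnt (B i) (ms γ)))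
          (f := fun i => (B i).indicator (fun x => ‖F (x ::ₘ ms γ)‖ₑ ^ 2) x) (fun _ _ => zero_le)
          (Finset.mem_filter.2 ⟨Finset.mem_univ i, hi2⟩)
        rw [Set.indicator_of_mem hi1] at this
        exact this
      · simp
    refine (lintegral_mono e3).trans ?_
    have hmx : Measurable fun x => ‖F (x ::ₘ ms γ)‖ₑ ^ 2 :=
      ((hF2.comp (measurable_prodMk_right (y := γ))).enorm.pow_const 2)
    rw [lintegral_finsetSum _ fun i _ => hmx.indicator (hBm i)]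
    refine Finset.sum_le_sum fun i _ => ?_
    rw [lintegral_indicator (hBm i)]
  · refine Measurable.aemeasurable ?_
    refine Measurable.mul ?_ (hF2.enorm.pow_const 2)
    exact Measurable.ite (hset 1) measurable_const measurable_const

lemma keyAbs [Nonempty X] {F : Multiset X → ℂ} (hF : EB F) (V : X → X → ℝ≥0∞)
    (hvm : Measurable fun p : X × X => V p.1 p.2) (k1 : (X → ℂ) → ℝ≥0∞) (kk c : ℝ≥0∞)
    (hc : c ≠ ⊤) (hk : ∫⁻ γ, k1 (fun x => F (x ::ₘ ms γ)) ∂(lam ν) = kk)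
    (H : ∀ f : X → ℂ, Measurable f → (∃ C : ℝ, ∀ x, ‖f x‖ ≤ C) → ∀ (O : Finset ι) (y : ι → X),
      (∀ i ∈ O, y i ∈ B i) → ∑ i ∈ O, ∫⁻ x in B i, ‖f x‖ₑ ^ 2 ∂ν ≤
        c * (k1 f + ∑ i ∈ O, ∫⁻ x, V x (y i) * ‖f x‖ₑ ^ 2 ∂ν)) :
    ∑ i, ∫⁻ γ, ((cnt (B i) (ms γ) - 1 : ℕ) : ℝ≥0∞) * ‖F (ms γ)‖ₑ ^ 2 ∂(lam ν) ≤
      c * (kk + ∫⁻ x, ∫⁻ y, V x y * nE ν (an y (an x F)) ∂ν ∂ν) := by
  classical
  have hfin : IsFiniteMeasure (lam ν) := (slam X ν).2.1
  obtain ⟨-, -, -, -, hF2, hF3, -, ⟨CC, cc, hCC, hcc, hbd⟩, -, -, hF4, -⟩ := ebc X ν F F hF hF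
  refine (first1 ν B hB hBm hF).trans ?_
  set Ψ : X → Multiset X → ℝ≥0∞ := fun y S =>
    ∫⁻ x, V x y * ‖F (x ::ₘ S)‖ₑ ^ 2 ∂ν with hΨ
  have hΨm : Measurable (fun p : X × Cf X => Ψ p.1 (ms p.2)) := by
    simp only [hΨ]
    refine Measurable.lintegral_prod_right' (f := fun q : (X × Cf X) × X =>
      V q.2 q.1.1 * ‖F (q.2 ::ₘ ms q.1.2)‖ₑ ^ 2) ?_
    refine Measurable.mul ?_ ?_
    · have h1 : Measurable (fun q : (X × Cf X) × X => ((q.2, q.1.1) : X × X)) :=
        measurable_snd.prodMk (measurable_fst.comp measurable_fst)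
      exact hvm.comp h1
    · have h1 : Measurable (fun q : (X × Cf X) × X => ((q.2, q.1.2) : X × Cf X)) :=
        measurable_snd.prodMk (measurable_snd.comp measurable_fst)
      exact (hF2.comp h1).enorm.pow_const 2
  have pt : ∀ γ : Cf X, ∑ i ∈ Finset.univ.filter (fun i => 1 ≤ cnt (B i) (ms γ)),
      ∫⁻ x in B i, ‖F (x ::ₘ ms γ)‖ₑ ^ 2 ∂ν ≤
      c * (k1 (fun x => F (x ::ₘ ms γ)) + ((ms γ).map fun y => Ψ y (ms γ)).sum) := by
    intro γ
    have hex : ∀ i : ι, ∃ y : X, 1 ≤ cnt (B i) (ms γ) → y ∈ ms γ ∧ y ∈ B i := by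
      intro i
      by_cases h : 1 ≤ cnt (B i) (ms γ)
      · unfold cnt at h
        obtain ⟨y, hy⟩ := Multiset.card_pos_iff_exists_mem.1 h
        rw [Multiset.mem_filter] at hy
        exact ⟨y, fun _ => hy⟩
      · exact ⟨Classical.arbitrary X, fun h' => absurd h' h⟩
    choose y hy using hex
    have h1 := H (fun x => F (x ::ₘ ms γ))
      (hF2.comp (measurable_prodMk_right (y := γ)))
      ⟨CC * cc ^ Multiset.card (ms γ), fun x => hbd x _⟩
      (Finset.univ.filter (fun i => 1 ≤ cnt (B i) (ms γ))) y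
      (fun i hi => (hy i (Finset.mem_filter.1 hi).2).2)
    refine h1.trans (mul_le_mul' le_rfl (add_le_add le_rfl ?_))
    exact lemC B hB (ms γ) _ y (fun i hi => (hy i (Finset.mem_filter.1 hi).2).1)
      (fun i hi => (hy i (Finset.mem_filter.1 hi).2).2) (fun y => Ψ y (ms γ))
  refine (lintegral_mono pt).trans ?_
  have hsum : Measurable fun γ : Cf X => ((ms γ).map fun y => Ψ y (ms γ)).sum := by
    have h1 := Pool.Agent.W975.CB.sum_meas (X := X) (Z := ℝ≥0∞) (Cf X)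
      (fun γ y => Ψ y (ms γ)) (hΨm.comp measurable_swap)
    have h2 : Measurable fun γ : Cf X => ((γ, γ) : Cf X × Cf X) := measurable_id.prodMk measurable_id
    have h3 := h1.comp h2
    simp only [Function.comp_def] at h3
    exact h3
  rw [lintegral_const_mul' _ _ hc, lintegral_add_right _ hsum, hk, mecke X ν Ψ hΨm]
  have e2 : ∀ y, ∫⁻ γ, Ψ y (y ::ₘ ms γ) ∂(lam ν) = ∫⁻ x, V x y * nE ν (an y (an x F)) ∂ν := by
    intro y
    simp only [hΨ]
    rw [lintegral_lintegral_swap]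
    · refine lintegral_congr fun x => ?_
      unfold nE an
      rw [lintegral_const_mul]
      exact (hF3.comp (measurable_prodMk_left (x := ((x, y) : X × X)))).enorm.pow_const 2
    · refine Measurable.aemeasurable ?_
      refine Measurable.mul ?_ ?_
      · have h1 : Measurable (fun q : Cf X × X => ((q.2, y) : X × X)) :=
          measurable_snd.prodMk measurable_const
        exact hvm.comp h1
      · have h1 : Measurable (fun q : Cf X × X => (((q.2, y), q.1) : (X × X) × Cf X)) :=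
          (measurable_snd.prodMk measurable_const).prodMk measurable_fst
        exact (hF3.comp h1).enorm.pow_const 2
  simp only [e2]
  rw [lintegral_lintegral_swap]
  refine Measurable.aemeasurable ?_
  exact (hvm.comp measurable_swap).mul (hF4.comp measurable_swap)

end main

theorem proof_la : S_TF → S_BLK → S_LA1 → S_FIB → S_LA := by
  intro hTF hBLK hLA1 hFIB n m C v hn hm hmn hC hv hv0
  obtain ⟨CA, b₀, hCA, hb₀, H⟩ := hLA1 n m C v hn hm hmn hC hv hv0
  refine ⟨2 * CA, b₀, by positivity, hb₀, ?_⟩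
  intro L b _ q μ K hb hL hq hK hPO F hF
  obtain ⟨hB1, hB2, -, -, -⟩ := hBLK n L b q (by omega) hL
  obtain ⟨-, -, -, -, -, -, -, hT⟩ := hTF n L
  obtain ⟨hvm, -⟩ := hT v hv
  have hbpos : 0 ≤ b := by linarith
  have key : ∑ i : Fin n → Fin q, ∫⁻ γ, ((cnt (blk n L b (fun c => (i c : ℕ))) (ms γ) - 1 : ℕ) : ℝ≥0∞) *
        ‖F (ms γ)‖ₑ ^ 2 ∂(lam (volume : Measure (Tor n L))) ≤
          ENNReal.ofReal (2 * CA * b ^ n) * en μ K v F := by
    have h := keyAbs volume (fun i : Fin n → Fin q => blk n L b (fun c => (i c : ℕ))) hB2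
      (fun i => hB1 _) hF (fun x y => v (tdist x y)) hvm (ken1 μ K) (ken μ K F)
      (ENNReal.ofReal (CA * b ^ n)) ENNReal.ofReal_ne_top (hFIB n L μ K hK F hF)
      (fun f hf hfb O y hy => H L b q μ K hb hL hq hK hPO f hf hfb O y hy)
    refine h.trans ?_
    have e1 : ∫⁻ x, ∫⁻ y, v (tdist x y) * nE volume (an y (an x F)) = 2 * Vp v F := by
      unfold Vp
      rw [← mul_assoc, ENNReal.mul_inv_cancel two_ne_zero ENNReal.ofNat_ne_top, one_mul]
    rw [e1, mul_assoc 2 CA, ENNReal.ofReal_mul (by norm_num : (0 : ℝ) ≤ 2), en,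
      mul_comm (ENNReal.ofReal 2), mul_assoc]
    refine mul_le_mul' le_rfl ?_
    rw [show ENNReal.ofReal 2 = 2 by simp, mul_add]
    refine add_le_add ?_ le_rfl
    calc ken μ K F = 1 * ken μ K F := (one_mul _).symm
      _ ≤ 2 * ken μ K F := mul_le_mul' (by norm_num) le_rfl
  refine ⟨key, ?_⟩
  refine (second volume (fun i : Fin n → Fin q => blk n L b (fun c => (i c : ℕ))) hB2
    (fun i => hB1 _) hF).trans (add_le_add ?_ key)
  refine mul_le_mul' (le_of_eq ?_) le_rfl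
  rw [Fintype.card_fun, Fintype.card_fin, Fintype.card_fin, Nat.cast_pow,
    ENNReal.ofReal_pow (by positivity), ENNReal.ofReal_natCast]

end Pool.Agent.W571.CB.La
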