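import Pool.Agent.W571.CB.La

/-!
# CB-TAIL: tails of the numbers of particles in the hat functions
-/

set_option autoImplicit false

open MeasureTheory Pool.Agent.W761.CB
open scoped ENNReal

namespace Pool.Agent.W571.CB.Tail

open Pool.Agent.W571.CB.La

section gen

variable {X : Type} {ι : Type} [Fintype ι] (B : ι → Set X) (hB : ∀ x, ∃! i, x ∈ B i)

include hB

lemma card_sum (S : Multiset X) : Multiset.card S = ∑ i, cnt (B i) S := by
  have h := lemB B hB S
  exact_mod_cast h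

lemma lemD [Nonempty X] (S : Multiset X) : ∃ (O : Finset ι) (y : ι → X) (S2 : Multiset X),
    (∀ i ∈ O, y i ∈ B i) ∧ S = O.val.map y + S2 ∧
      Multiset.card S2 = ∑ i, (cnt (B i) S - 1) := by
  classical
  have hex : ∀ i : ι, ∃ y : X, 1 ≤ cnt (B i) S → y ∈ S ∧ y ∈ B i := by
    intro i
    by_cases h : 1 ≤ cnt (B i) S
    · have h' := h
      unfold cnt at h'
      obtain ⟨y, hy⟩ := Multiset.card_pos_iff_exists_mem.1 h'
      rw [Multiset.mem_filter] at hy
      exact ⟨y, fun _ => hy⟩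
    · exact ⟨Classical.arbitrary X, fun h' => absurd h' h⟩
  choose y hy using hex
  set O := Finset.univ.filter (fun i => 1 ≤ cnt (B i) S) with hO
  have hO1 : ∀ i ∈ O, y i ∈ S := fun i hi => (hy i (Finset.mem_filter.1 hi).2).1
  have hO2 : ∀ i ∈ O, y i ∈ B i := fun i hi => (hy i (Finset.mem_filter.1 hi).2).2
  have hnd : (O.val.map y).Nodup := by
    refine Multiset.Nodup.map_on ?_ O.nodup
    intro i hi j hj hij
    have e1 := hO2 i hi
    have e2 := hO2 j hj
    rw [hij] at e1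
    exact (hB (y j)).unique e1 e2
  have hle : O.val.map y ≤ S := by
    rw [Multiset.le_iff_subset hnd]
    intro z hz
    obtain ⟨i, hi, rfl⟩ := Multiset.mem_map.1 hz
    exact hO1 i hi
  obtain ⟨S2, hS2⟩ := Multiset.le_iff_exists_add.1 hle
  refine ⟨O, y, S2, hO2, hS2, ?_⟩
  have h1 := card_sum B hB S
  have h2 : Multiset.card S = O.card + Multiset.card S2 := by
    conv_lhs => rw [hS2]
    rw [Multiset.card_add, Multiset.card_map]
    rfl
  have h3 : ∑ i, cnt (B i) S = ∑ i, (cnt (B i) S - 1) + O.card := by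
    rw [hO, Finset.card_filter, ← Finset.sum_add_distrib]
    refine Finset.sum_congr rfl fun i _ => ?_
    split_ifs with h <;> omega
  omega

open Classical in
lemma pointwise [Nonempty X] {κ' : Type} [Fintype κ'] (w : κ' → X → ℝ) (h0 : ∀ k x, 0 ≤ w k x)
    (h1 : ∀ k x, w k x ≤ 1) (hs : ∀ x, ∑ k, w k x = 1) (K : ℝ)
    (hK : ∀ k, ((Finset.univ.filter fun i => ∃ x ∈ B i, w k x ≠ 0).card : ℝ) ≤ K)
    (S : Multiset X) :
    ∑ k, ENNReal.ofReal ((S.map (w k)).sum - K) ≤ ∑ i, ((cnt (B i) S - 1 : ℕ) : ℝ≥0∞) := by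
  obtain ⟨O, y, S2, hO, hS, hc⟩ := lemD B hB S
  have hk : ∀ k, (S.map (w k)).sum - K ≤ (S2.map (w k)).sum := by
    intro k
    have e1 : (S.map (w k)).sum = ∑ i ∈ O, w k (y i) + (S2.map (w k)).sum := by
      conv_lhs => rw [hS]
      rw [Multiset.map_add, Multiset.sum_add, Multiset.map_map]
      rfl
    have e2 : ∑ i ∈ O, w k (y i) ≤
        ((Finset.univ.filter fun i => ∃ x ∈ B i, w k x ≠ 0).card : ℝ) := by
      calc ∑ i ∈ O, w k (y i) ≤ ∑ i ∈ O, if (∃ x ∈ B i, w k x ≠ 0) then (1 : ℝ) else 0 := by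
            refine Finset.sum_le_sum fun i hi => ?_
            split_ifs with h
            · exact h1 k _
            · push Not at h
              exact (h (y i) (hO i hi)).le
        _ ≤ ∑ i, if (∃ x ∈ B i, w k x ≠ 0) then (1 : ℝ) else 0 := by
            refine Finset.sum_le_sum_of_subset_of_nonneg (Finset.subset_univ _) fun i _ _ => ?_
            split_ifs <;> norm_num
        _ = _ := by
            rw [Finset.card_filter]
            push_cast
            rfl
    linarith [hK k]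
  have h2 : ∀ k, 0 ≤ (S2.map (w k)).sum := by
    intro k
    refine Multiset.sum_nonneg ?_
    intro z hz
    obtain ⟨x, -, rfl⟩ := Multiset.mem_map.1 hz
    exact h0 k x
  calc ∑ k, ENNReal.ofReal ((S.map (w k)).sum - K) ≤ ∑ k, ENNReal.ofReal ((S2.map (w k)).sum) :=
        Finset.sum_le_sum fun k _ => ENNReal.ofReal_le_ofReal (hk k)
    _ = ENNReal.ofReal (∑ k, (S2.map (w k)).sum) := (ENNReal.ofReal_sum_of_nonneg fun k _ => h2 k).symm
    _ = ((Multiset.card S2 : ℕ) : ℝ≥0∞) := by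
        have : ∑ k, (S2.map (w k)).sum = Multiset.card S2 := by
          clear hc hS hk h2
          induction S2 using Multiset.induction_on with
          | empty => simp
          | cons x S ih =>
            simp only [Multiset.map_cons, Multiset.sum_cons, Finset.sum_add_distrib, ih, hs,
              Multiset.card_cons, Nat.cast_add, Nat.cast_one]
            ring
        rw [this, ENNReal.ofReal_natCast]
    _ = _ := by
        rw [hc, Nat.cast_sum]

end gen

lemma rep {L : ℝ} [Fact (0 < L)] (a : AddCircle L) : ∃ t : ℝ, |t| = ‖a‖ ∧ (t : AddCircle L) = a := by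
  induction a using QuotientAddGroup.induction_on with
  | H x =>
    refine ⟨x - round (L⁻¹ * x) * L, ?_, ?_⟩
    · exact (AddCircle.norm_eq L).symm
    · rw [AddCircle.coe_sub]
      have : ((round (L⁻¹ * x) * L : ℝ) : AddCircle L) = 0 := by
        rw [AddCircle.coe_eq_zero_iff]
        exact ⟨round (L⁻¹ * x), by rw [zsmul_eq_mul]⟩
      rw [this, sub_zero]

lemma near {n : ℕ} {L ℓ : ℝ} [Fact (0 < L)] (hℓ : 0 < ℓ) (i : Fin n → ℕ)
    (y : Tor n L) (h : hat n L ℓ i y ≠ 0) :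
    ∃ z : Fin n → ℝ, (∀ c, |z c| ≤ ℓ) ∧ y = pr L (fun c => (i c : ℝ) * ℓ) + pr L z := by
  have hL : 0 < L := Fact.out
  have h1 : ∀ c, ‖y c - (((i c : ℝ) * ℓ : ℝ) : AddCircle L)‖ ≤ ℓ := by
    intro c
    have h2 : ht L ℓ (y c - (((i c : ℝ) * ℓ : ℝ) : AddCircle L)) ≠ 0 := by
      intro h3
      exact h (Finset.prod_eq_zero (Finset.mem_univ c) h3)
    unfold ht at h2
    split_ifs at h2 with h4
    · by_contra h5
      push Not at h5
      apply h2
      apply max_eq_left
      have : 1 ≤ ‖y c - (((i c : ℝ) * ℓ : ℝ) : AddCircle L)‖ / ℓ := by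
        rw [le_div_iff₀ hℓ]
        linarith
      linarith
    · have h5 := AddCircle.norm_le_half_period (p := L)
        (x := y c - (((i c : ℝ) * ℓ : ℝ) : AddCircle L)) hL.ne'
      rw [abs_of_pos hL] at h5
      linarith
  choose t ht1 ht2 using fun c => rep (y c - (((i c : ℝ) * ℓ : ℝ) : AddCircle L))
  refine ⟨t, fun c => ?_, ?_⟩
  · rw [ht1]
    exact h1 c
  · funext c
    simp only [Pi.add_apply, pr]
    rw [ht2]
    abel

theorem proof_tail : S_HAT → S_BLK → S_TAIL := by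
  classical
  intro hHAT hBLK n L b _ q s hq hL F hF
  have hL0 : 0 < L := Fact.out
  have hqs : 1 ≤ q * 2 ^ s := Nat.one_le_iff_ne_zero.2 (by positivity)
  have hqs' : (0 : ℝ) < ((q * 2 ^ s : ℕ) : ℝ) := by exact_mod_cast hqs
  have hb : 0 < b := by
    by_contra h
    push Not at h
    nlinarith
  obtain ⟨hB1, hB2, -, -, hB5⟩ := hBLK n L b (q * 2 ^ s) hqs hL
  have hL' : L = (q : ℝ) * (2 ^ s * b) := by
    rw [hL]; push_cast; ring
  obtain ⟨hH1, hH2, hH3, -, -⟩ := hHAT n L (2 ^ s * b) q hq hL'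
  have hfin : IsFiniteMeasure (lam (volume : Measure (Tor n L))) := (slam (Tor n L) volume).2.1
  have hm1 : ∀ i : Fin n → Fin q, Measurable fun γ : Cf (Tor n L) =>
      ENNReal.ofReal (((ms γ).map (hat n L (2 ^ s * b) (fun c => (i c : ℕ)))).sum -
        4 ^ n / b ^ n * (2 ^ s * b) ^ n) * ‖F (ms γ)‖ₑ ^ 2 := by
    intro i
    refine Measurable.mul ?_ (meas_nF hF)
    have h1 := Pool.Agent.W975.CB.sum_meas (X := Tor n L) (Z := ℝ) Unit
      (fun _ x => hat n L (2 ^ s * b) (fun c => (i c : ℕ)) x) ((hH1 _).comp measurable_snd)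
    have h2 : Measurable fun γ : Cf (Tor n L) =>
        ((ms γ).map (hat n L (2 ^ s * b) (fun c => (i c : ℕ)))).sum :=
      h1.comp (measurable_prodMk_left (x := ()))
    exact (h2.sub_const _).ennreal_ofReal
  have hm2 : ∀ i : Fin n → Fin (q * 2 ^ s), Measurable fun γ : Cf (Tor n L) =>
      ((cnt (blk n L b (fun c => (i c : ℕ))) (ms γ) - 1 : ℕ) : ℝ≥0∞) * ‖F (ms γ)‖ₑ ^ 2 := by
    intro i
    refine Measurable.mul ?_ (meas_nF hF)
    exact (measurable_from_nat (f := fun k : ℕ => ((k - 1 : ℕ) : ℝ≥0∞))).comp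
      (meas_cnt _ (hB1 _))
  unfold tl
  rw [← lintegral_finsetSum _ fun i _ => hm1 i, ← lintegral_finsetSum _ fun i _ => hm2 i]
  refine lintegral_mono fun γ => ?_
  rw [← Finset.sum_mul, ← Finset.sum_mul]
  refine mul_le_mul' ?_ le_rfl
  refine pointwise (fun i : Fin n → Fin (q * 2 ^ s) => blk n L b (fun c => (i c : ℕ))) hB2
    (fun i : Fin n → Fin q => hat n L (2 ^ s * b) (fun c => (i c : ℕ)))
    (fun k x => (hH2 _ x).1) (fun k x => (hH2 _ x).2) hH3 _ ?_ (ms γ)
  intro k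
  have h1 := hB5 (pr L (fun c => ((k c : ℕ) : ℝ) * (2 ^ s * b))) (2 ^ s)
  have hsub : (Finset.univ.filter fun i : Fin n → Fin (q * 2 ^ s) =>
      ∃ x ∈ blk n L b (fun c => (i c : ℕ)), hat n L (2 ^ s * b) (fun c => (k c : ℕ)) x ≠ 0) ⊆
      (Finset.univ.filter fun i : Fin n → Fin (q * 2 ^ s) =>
      ∃ y ∈ blk n L b (fun c => (i c : ℕ)), ∃ z : Fin n → ℝ, (∀ c, |z c| ≤ ((2 ^ s : ℕ) : ℝ) * b) ∧
        y = pr L (fun c => ((k c : ℕ) : ℝ) * (2 ^ s * b)) + pr L z) := by
    intro i hi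
    rw [Finset.mem_filter] at hi ⊢
    refine ⟨Finset.mem_univ _, ?_⟩
    obtain ⟨-, x, hx1, hx2⟩ := hi
    obtain ⟨z, hz1, hz2⟩ := near (by positivity) _ x hx2
    refine ⟨x, hx1, z, fun c => ?_, hz2⟩
    have := hz1 c
    push_cast
    exact this
  have h2 : ((Finset.univ.filter fun i : Fin n → Fin (q * 2 ^ s) =>
      ∃ x ∈ blk n L b (fun c => (i c : ℕ)), hat n L (2 ^ s * b) (fun c => (k c : ℕ)) x ≠ 0).card : ℝ) ≤
      (2 * ((2 ^ s : ℕ) : ℝ) + 2) ^ n := by
    refine le_trans ?_ h1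
    have := Finset.card_le_card hsub
    exact_mod_cast this
  refine le_trans ?_ (h2.trans ?_)
  · refine le_of_eq ?_
    congr 2
  · have e1 : (4 : ℝ) ^ n / b ^ n * (2 ^ s * b) ^ n = (4 * 2 ^ s) ^ n := by
      rw [mul_pow, mul_pow]
      field_simp
    rw [e1]
    refine pow_le_pow_left₀ (by positivity) ?_ n
    push_cast
    have : (1 : ℝ) ≤ 2 ^ s := one_le_pow₀ (by norm_num)
    linarith

end Pool.Agent.W571.CB.Tail
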